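import Pool.Agent.R904.Voi.Defs

/-!
# Quotients of powers of curves by groups of signed permutations: definitions
-/

open CategoryTheory AlgebraicGeometry

universe u v w

namespace Pool.Agent.H802GB

open Pool.Agent.H914 Pool.Agent.H914.VarClass Pool.Agent.H914.VarClass.Obj Pool.Agent.W492.BB
  Pool.Agent.W550.Corr Pool.Agent.TH133 Pool.Agent.TH829.Kim Pool.Agent.R904.Voi

section group

variable {r n : ℕ}

/-- The underlying set of the wreath product `(ℤ/2)^r ≀ S_n`. If the group `(ℤ/2)^r` acts on `X` by
the automorphisms `a g`, the element `p = (σ, g)` acts on `X^n` by the automorphism `m` with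
`pr_j ∘ m = a (g_j) ∘ pr_(σ j)` for all `j`. -/
abbrev Wreath (r n : ℕ) : Type := Equiv.Perm (Fin n) × (Fin n → Two r)

/-- The product of the wreath product `(ℤ/2)^r ≀ S_n`. -/
def wmul (p q : Wreath r n) : Wreath r n := (p.1 * q.1, fun j => p.2 (q.1 j) + q.2 j)

/-- The finite set `Γ` is a subgroup of the wreath product `(ℤ/2)^r ≀ S_n` (a subset of a finite
group which contains the unit element and is closed under products). -/
structure IsWreathSubgroup (Γ : Finset (Wreath r n)) : Prop where
  one_mem : ((1 : Equiv.Perm (Fin n)), (0 : Fin n → Two r)) ∈ Γ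
  mul_mem : ∀ p ∈ Γ, ∀ q ∈ Γ, wmul p q ∈ Γ

/-- The indices of a basis of `H^0(X, K_X)`, where `X` is a curve with an action of `(ℤ/2)^r` and
`γ φ` is the dimension of the space of the forms `ω` with `(a g)^* ω = φ(g) ω` for all `g`. -/
abbrev Eig (γ : Two r → ℕ) : Type := (φ : Two r) × Fin (γ φ)

/-- For an optional character `φ`: the number `φ(g)`, or `1` if there is no character. -/
def optChi (φ : Option (Two r)) (g : Two r) : ℚ := φ.elim 1 fun φ => chi φ g

/-- Let `ω_b` be the basis of `H^0(X, K_X)` consisting of eigenforms. For a map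
`β : Fin n → Option (Eig γ)` with support `K = {j | β j ≠ none}` let `ω_β` be the exterior product
of the forms `pr_j^* ω_(β j)`, `j ∈ K` (in increasing order); the `ω_β` are a basis of the space
`H^0(X^n, Ω^•)` of all holomorphic forms on `X^n`. If `p = (σ, g)` satisfies `β ∘ σ = β` then `p`
maps `ω_β` to `sign(σ | K) ∏_(j ∈ K) φ_j(g_j) ω_β`, where `φ_j` is the character of `ω_(β j)`. The
condition: some element of `Γ` maps `ω_β` to `- ω_β` (here `τ` is the permutation `σ | K`, extended
by the identity). The space of forms on `X^n` invariant under `Γ` has a basis consisting of the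
sums over the orbits of the `ω_β` which do not satisfy this condition. -/
def IsKilled (γ : Two r → ℕ) (Γ : Finset (Wreath r n)) (β : Fin n → Option (Eig γ)) : Prop :=
  ∃ p ∈ Γ, (∀ j, β (p.1 j) = β j) ∧ ∃ τ : Equiv.Perm (Fin n),
    (∀ j, β j ≠ none → τ j = p.1 j) ∧ (∀ j, β j = none → τ j = j) ∧
    ((Equiv.Perm.sign τ : ℤ) : ℚ) * ∏ j, optChi ((β j).map Sigma.fst) (p.2 j) = -1

/-- There are no `Γ`-invariant holomorphic forms of degree greater than `s` on `X^n`, that is,
`H^0(X^n / Γ, Ω^j) = 0` for all `j > s`. For `s = 0` this means that (a resolution of) the quotient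
`X^n / Γ` has Hodge coniveau at least one. -/
def NoFormsAbove (γ : Two r → ℕ) (Γ : Finset (Wreath r n)) (s : ℕ) : Prop :=
  ∀ β : Fin n → Option (Eig γ), s < (Finset.univ.filter fun j => β j ≠ none).card →
    IsKilled γ Γ β

end group

variable {k : Type u} [Field k] {𝒱 : VarClass k}

section defs

variable (C : TheoryData.{u, v, 0} 𝒱 ℚ) {r n : ℕ} {X P Y : 𝒱.Obj}

/-- The variety `P` with the projections `t j : P ⟶ X` is the `n`-th power of the curve `X`, and
the group `CH_0(P)_ℚ` is generated by the exterior products `z_1 × ⋯ × z_n` of zero-cycles on `X`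
(this holds for all curves over algebraically closed fields). -/
structure IsPowerOfCurve (t : Fin n → (P ⟶ X)) : Prop where
  univ : ∀ (W : 𝒱.Obj) (s : Fin n → (W ⟶ X)), ∃! g : W ⟶ P, ∀ j, g ≫ t j = s j
  cycles : ∀ w : C.A P, C.Deg P.dim w → w ∈ Submodule.span ℚ
    {w | ∃ z : Fin n → C.A X, (∀ j, C.Deg 1 (z j)) ∧
      w = (List.ofFn fun j => C.up (t j) (z j)).prod}

/-- The variety `Y` is dominated by the quotient `P / Γ` of `P = X^n`, by means of the
correspondence `b ∈ CH^(dim Y)(P × Y)_ℚ`: this correspondence is invariant under the action of `Γ`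
on `P`, and for some `c ∈ CH^(dim P)(Y × P)_ℚ` the composition `b_* c_*` is the multiplication by a
rational number `N ≠ 0` on `CH_0(Y)_ℚ`. (For example `b` is the graph of a dominant rational map
from `P` to `Y` which factors through `P / Γ`, and `c` is the transpose of its restriction to a
subvariety of `P` which is generically finite over `Y`.) -/
def IsDominatedBy (a : Two r → (X ⟶ X)) (t : Fin n → (P ⟶ X)) (Γ : Finset (Wreath r n))
    (b : C.A (P.prod Y)) : Prop :=
  C.Deg Y.dim b ∧
  (∀ p ∈ Γ, ∀ m : P ⟶ P, (∀ j, m ≫ t j = t (p.1 j) ≫ a (p.2 j)) →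
    C.up (prodMap m (𝟙 Y)) b = b) ∧
  ∃ (c : C.A (Y.prod P)) (N : ℚ), C.Deg P.dim c ∧ N ≠ 0 ∧
    ∀ α : C.A Y, C.Deg Y.dim α → C.act b (C.act c α) = N • α

/-- The zero-cycle classes `b_*(z_1 × ⋯ × z_n)` on `Y`, where `z_j = e` for all `j` outside a set
of at most `s` elements. If `e` is the class of a zero-cycle with support `D ⊂ X` these are classes
of zero-cycles supported on the image in `Y` of the closed subset of `X^n` of dimension `s`
consisting of the points of which at most `s` coordinates are not in `D`. -/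
def supportedSpan (t : Fin n → (P ⟶ X)) (b : C.A (P.prod Y)) (e : C.A X) (s : ℕ) :
    Submodule ℚ (C.A Y) :=
  Submodule.span ℚ {w | ∃ (S : Finset (Fin n)) (z : Fin n → C.A X), S.card ≤ s ∧
    (∀ j, C.Deg 1 (z j)) ∧ (∀ j, j ∉ S → z j = e) ∧
      w = C.act b (List.ofFn fun j => C.up (t j) (z j)).prod}

end defs

end Pool.Agent.H802GB
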