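import Pool.Agent.H802GB.RelZ
import Pool.Agent.R904.Voi.Main

/-!
# Zero-cycles on varieties dominated by quotients of powers of curves
-/

open CategoryTheory AlgebraicGeometry

universe u v w

namespace Pool.Agent.H802GB

open Pool.Agent.H914 Pool.Agent.H914.VarClass Pool.Agent.H914.VarClass.Obj Pool.Agent.W492.BB
  Pool.Agent.W550.Corr Pool.Agent.TH133 Pool.Agent.TH829.Kim Pool.Agent.R904.Voi

variable {k : Type u} [Field k] {𝒱 : VarClass k}

variable {C : TheoryData.{u, v, 0} 𝒱 ℚ} [hC : IsChowProj C] {X Y Z W V T S P : 𝒱.Obj}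

include hC

/-- The action of an invariant correspondence. -/
lemma act_pull {b : C.A (P.prod Y)} {m m' : P ⟶ P} (h1 : m ≫ m' = 𝟙 P) (h2 : m' ≫ m = 𝟙 P)
    (hb : C.pull (prodMap m (𝟙 Y)) b = b) (w : C.A P) :
    C.act b (C.pull m w) = C.act b w := by
  have e1 : prodMap m (𝟙 Y) ≫ prodMap m' (𝟙 Y) = 𝟙 (P.prod Y) := by
    apply prod_ext
    · rw [Category.assoc, prodMap_fst, ← Category.assoc, prodMap_fst, Category.assoc, h1]
      simp
    · rw [Category.assoc, prodMap_snd, ← Category.assoc, prodMap_snd]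
      simp
  have e2 : prodMap m' (𝟙 Y) ≫ prodMap m (𝟙 Y) = 𝟙 (P.prod Y) := by
    apply prod_ext
    · rw [Category.assoc, prodMap_fst, ← Category.assoc, prodMap_fst, Category.assoc, h2]
      simp
    · rw [Category.assoc, prodMap_snd, ← Category.assoc, prodMap_snd]
      simp
  have e3 : C.pull (fst P Y) (C.pull m w) = C.pull (prodMap m (𝟙 Y)) (C.pull (fst P Y) w) := by
    rw [← C.pull_comp, ← C.pull_comp, prodMap_fst]
  rw [TheoryData.act_apply, TheoryData.act_apply]
  conv_lhs => rw [← hb, e3, ← map_mul, pull_iso C _ _ e1 e2, ← C.push_comp, prodMap_snd,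
    Category.comp_id]

section main

variable {r n : ℕ} {a : Two r → (X ⟶ X)} {γ : Two r → ℕ} {e : C.A X} {t : Fin n → (P ⟶ X)}
  {Γ : Finset (Wreath r n)} {b : C.A (P.prod Y)}

omit hC in
/-- The elements of the wreath product act. -/
lemma exists_mor (hP : IsPowerOfCurve C t) (h0 : a 0 = 𝟙 X)
    (h1 : ∀ g h, a (g + h) = a g ≫ a h) (p : Wreath r n) :
    ∃ m m' : P ⟶ P, m ≫ m' = 𝟙 P ∧ m' ≫ m = 𝟙 P ∧ ∀ j, m ≫ t j = t (p.1 j) ≫ a (p.2 j) := by
  obtain ⟨m, hm, -⟩ := hP.univ P fun j => t (p.1 j) ≫ a (p.2 j)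
  obtain ⟨m', hm', -⟩ := hP.univ P fun j => t (p.1⁻¹ j) ≫ a (p.2 (p.1⁻¹ j))
  have huniq : ∀ g : P ⟶ P, (∀ j, g ≫ t j = t j) → g = 𝟙 P := by
    intro g hg
    obtain ⟨g0, -, h3⟩ := hP.univ P t
    rw [h3 g hg, h3 (𝟙 P) fun j => Category.id_comp _]
  refine ⟨m, m', huniq _ fun j => ?_, huniq _ fun j => ?_, hm⟩
  · rw [Category.assoc, hm', ← Category.assoc, hm, Category.assoc, act_sq h0 h1]
    simp
  · rw [Category.assoc, hm, ← Category.assoc, hm', Category.assoc]
    simp [act_sq h0 h1]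

/-- The contribution of a type whose monomial forms are killed. -/
theorem killed_type (hd : X.dim = 1) (h0 : a 0 = 𝟙 X) (h1 : ∀ g h, a (g + h) = a g ≫ a h)
    (he : C.Deg 1 e) (he1 : HasDegree C e 1) (hinv : ∀ g, C.pull (a g) e = e)
    (hk : ∀ φ, PermZero C (charProj C a e φ) (Fin (γ φ + 1) ⊕ Fin (γ φ + 1)))
    (hP : IsPowerOfCurve C t) (hΓ : IsWreathSubgroup Γ)
    (hb : ∀ p ∈ Γ, ∀ m : P ⟶ P, (∀ j, m ≫ t j = t (p.1 j) ≫ a (p.2 j)) →
      C.pull (prodMap m (𝟙 Y)) b = b)
    (c : Fin n → Option (Two r))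
    (hc : ∀ β : Fin n → Option (Eig γ), (∀ j, (β j).map Sigma.fst = c j) → IsKilled γ Γ β)
    (z : Fin n → C.A X) (hz : ∀ j, C.Deg 1 (z j)) (hz0 : ∀ j, c j = none → z j = e)
    (hz1 : ∀ j φ, c j = some φ → C.act (charProj C a e φ) (z j) = z j)
    (hz2 : ∀ j φ, c j = some φ → ∀ g, C.pull (a g) (z j) = chi φ g • z j) :
    C.act b (∏ j, C.pull (t j) (z j)) = 0 := by
  classical
  -- the sum over the stabilizer
  have key := stab_sum (M := C.A P) hΓ c hc
    (fun σ => ∏ x : {j // (c j).isSome}, C.pull (t (σ x)) (z x)) (by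
    intro q A hA hAq σ _
    exact relZ_sub (κ := {j // (c j).isSome}) hd (charProj_idem hd he he1 h0 h1 hinv q)
      (charProj_symm h0 h1 hinv q) (charProj_mem hd he q) (hk q) he he1
      (z := fun x => z x) A hA (fun x _ => hz x)
      (fun x hx => hz1 x q (by rw [typ_spec c x, hAq x hx])) (fun x => t (σ x)))
  have hchi : ∀ (p : Wreath r n) (j : Fin n), C.pull (a (p.2 j)) (z j) =
      optChi (c j) (p.2 j) • z j := by
    intro p j
    rcases hcj : c j with _ | φ
    · rw [hz0 j hcj, hinv]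
      simp [optChi]
    · rw [hz2 j φ hcj]
      rfl
  -- the translates
  have htr : ∀ p ∈ stab Γ c, C.act b ((charT c p • ∏ x : {j // (c j).isSome},
      C.pull (t (res c p x)) (z x)) * ∏ j ∈ Finset.univ.filter (fun j => ¬ (c j).isSome),
      C.pull (t j) (z j)) = C.act b (∏ j, C.pull (t j) (z j)) := by
    intro p hp
    have hp' := Finset.mem_filter.1 hp
    obtain ⟨m, m', hm1, hm2, hm⟩ := exists_mor hP h0 h1 p
    rw [← act_pull hm1 hm2 (hb p hp'.1 m hm) (∏ j, C.pull (t j) (z j))]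
    congr 1
    have e1 : C.pull m (∏ j, C.pull (t j) (z j)) =
        charT c p • ∏ j, C.pull (t (p.1 j)) (z j) := by
      rw [map_prod, charT, ← Finset.prod_smul]
      refine Finset.prod_congr rfl fun j _ => ?_
      rw [← C.pull_comp, hm, C.pull_comp, hchi, map_smul]
    have e2 : ∏ x : {j // (c j).isSome}, C.pull (t (res c p x)) (z x) =
        ∏ j ∈ Finset.univ.filter (fun j => (c j).isSome), C.pull (t (p.1 j)) (z j) := by
      rw [← Finset.prod_subtype_eq_prod_filter, Finset.subtype_univ]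
      refine Finset.prod_congr rfl fun x _ => ?_
      rw [res_apply hp'.2]
    have e3 : ∏ j ∈ Finset.univ.filter (fun j => ¬ (c j).isSome), C.pull (t j) (z j) =
        ∏ j ∈ Finset.univ.filter (fun j => ¬ (c j).isSome), C.pull (t (p.1 j)) (z j) := by
      refine (Finset.prod_bij' (fun j _ => p.1 j) (fun j _ => p.1⁻¹ j) ?_ ?_ ?_ ?_ ?_).symm
      · intro j hj
        rw [Finset.mem_filter] at hj ⊢
        exact ⟨Finset.mem_univ _, by rw [hp'.2]; exact hj.2⟩
      · intro j hj
        rw [Finset.mem_filter] at hj ⊢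
        refine ⟨Finset.mem_univ _, ?_⟩
        have h3 := hp'.2 (p.1⁻¹ j)
        have h4 : p.1 (p.1⁻¹ j) = j := p.1.apply_symm_apply j
        rw [h4] at h3
        rw [← h3]
        exact hj.2
      · intro j _
        simp
      · intro j _
        simp
      · intro j hj
        rw [Finset.mem_filter] at hj
        have h3 : c j = none := Option.not_isSome_iff_eq_none.1 hj.2
        rw [hz0 j h3, hz0 (p.1 j) (by rw [hp'.2]; exact h3)]
    rw [e1, e2, e3, smul_mul_assoc, Finset.prod_filter_mul_prod_filter_not]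
  have h3 : ((stab Γ c).card : ℚ) • C.act b (∏ j, C.pull (t j) (z j)) = 0 := by
    have h4 : ((stab Γ c).card : ℚ) • C.act b (∏ j, C.pull (t j) (z j)) =
        ∑ _p ∈ stab Γ c, C.act b (∏ j, C.pull (t j) (z j)) := by
      rw [Finset.sum_const, Nat.cast_smul_eq_nsmul]
    rw [h4, ← Finset.sum_congr rfl htr, ← act_map_sum C, ← Finset.sum_mul, key, zero_mul,
      ← C.actL_apply, map_zero]
  have h4 : ((stab Γ c).card : ℚ) ≠ 0 := by
    rw [Nat.cast_ne_zero, Finset.card_ne_zero]
    exact ⟨(1, 0), Finset.mem_filter.2 ⟨hΓ.one_mem, fun j => rfl⟩⟩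
  exact (smul_eq_zero.1 h3).resolve_left h4

/-- The basic classes. -/
noncomputable def part (C : TheoryData.{u, v, 0} 𝒱 ℚ) (a : Two r → (X ⟶ X)) (e : C.A X)
    (z : C.A X) (o : Option (Two r)) : C.A X := o.elim e fun φ => cpt C a e φ z

lemma part_deg (hd : X.dim = 1) (he : C.Deg 1 e) {z : C.A X} (hz : C.Deg 1 z)
    (o : Option (Two r)) : C.Deg 1 (part C a e z o) := by
  cases o with
  | none => exact he
  | some φ => exact cpt_deg hd he φ hz

/-- The classes on `Y` which come from exterior products. -/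
theorem act_prod_mem (hd : X.dim = 1) (h0 : a 0 = 𝟙 X) (h1 : ∀ g h, a (g + h) = a g ≫ a h)
    (he : C.Deg 1 e) (he1 : HasDegree C e 1) (hinv : ∀ g, C.pull (a g) e = e)
    (hk : ∀ φ, PermZero C (charProj C a e φ) (Fin (γ φ + 1) ⊕ Fin (γ φ + 1)))
    (hP : IsPowerOfCurve C t) (hΓ : IsWreathSubgroup Γ)
    (hb : ∀ p ∈ Γ, ∀ m : P ⟶ P, (∀ j, m ≫ t j = t (p.1 j) ≫ a (p.2 j)) →
      C.pull (prodMap m (𝟙 Y)) b = b) {s : ℕ} (hs : NoFormsAbove γ Γ s)
    (z : Fin n → C.A X) (hz : ∀ j, C.Deg 1 (z j)) :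
    C.act b (∏ j, C.pull (t j) (z j)) ∈ supportedSpan C t b e s := by
  classical
  choose q hq using fun j => decomp (a := a) hd he h0 (hz j)
  have h2 : ∀ j, C.pull (t j) (z j) = ∑ o : Option (Two r),
      (o.elim (q j) fun _ => 1 : ℚ) • C.pull (t j) (part C a e (z j) o) := by
    intro j
    rw [Fintype.sum_option]
    conv_lhs => rw [hq j, map_add, map_smul, map_sum]
    congr 1
    refine Finset.sum_congr rfl fun φ _ => ?_
    simp [part]
  rw [Finset.prod_congr rfl fun j _ => h2 j, Finset.prod_univ_sum, Fintype.piFinset_univ,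
    act_map_sum C]
  refine Submodule.sum_mem _ fun c _ => ?_
  rw [Finset.prod_smul, act_map_smul C]
  refine Submodule.smul_mem _ _ ?_
  by_cases hcard : (Finset.univ.filter fun j => (c j).isSome).card ≤ s
  · refine Submodule.subset_span ⟨Finset.univ.filter fun j => (c j).isSome,
      fun j => part C a e (z j) (c j), hcard, fun j => part_deg hd he (hz j) _,
      fun j hj => ?_, ?_⟩
    · have h3 : c j = none := by
        rw [Finset.mem_filter] at hj
        rw [← Option.not_isSome_iff_eq_none]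
        exact fun h => hj ⟨Finset.mem_univ _, h⟩
      dsimp only
      rw [h3]
      rfl
    · rw [List.prod_ofFn]
  · have h3 := killed_type hd h0 h1 he he1 hinv hk hP hΓ hb c (fun β hβ => hs β (by
      have h4 : (Finset.univ.filter fun j => β j ≠ none) =
          Finset.univ.filter fun j => (c j).isSome := by
        ext j
        rw [Finset.mem_filter, Finset.mem_filter, ← hβ j]
        cases β j <;> simp
      rw [h4]
      exact not_le.1 hcard)) (fun j => part C a e (z j) (c j)) (fun j => part_deg hd he (hz j) _)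
      (fun j hj => by rw [hj]; rfl)
      (fun j φ hj => by
        rw [hj]
        exact cpt_fix hd he he1 h0 h1 hinv φ (z j))
      (fun j φ hj g => by
        rw [hj]
        exact cpt_eigen h1 φ g (z j))
    rw [h3]
    exact Submodule.zero_mem _

end main

variable {r n : ℕ} {a : Two r → (X ⟶ X)} {γ : Two r → ℕ} {t : Fin n → (P ⟶ X)}
  {Γ : Finset (Wreath r n)} {b : C.A (P.prod Y)}

/-- The group of zero-cycles on `Y`. -/
theorem main_span (hX : IsCurveWithGenera C X a γ) (hP : IsPowerOfCurve C t)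
    (hΓ : IsWreathSubgroup Γ) (hY : IsDominatedBy C a t Γ b) {s : ℕ}
    (hs : NoFormsAbove γ Γ s) :
    ∃ e : C.A X, C.Deg 1 e ∧ HasDegree C e 1 ∧
      ∀ α : C.A Y, C.Deg Y.dim α → α ∈ supportedSpan C t b e s := by
  obtain ⟨hd, h0, h1, e, he, he1, hinv, hk⟩ := hX
  obtain ⟨hbd, hb, c, N, hc, hN, hdom⟩ := hY
  refine ⟨e, he, he1, fun α hα => ?_⟩
  have hk' : ∀ φ, PermZero C (charProj C a e φ) (Fin (γ φ + 1) ⊕ Fin (γ φ + 1)) := by
    intro φ
    apply permZero_double
    intro W x y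
    rw [← hk φ W x y, symPower]
    refine Finset.sum_congr rfl fun σ _ => ?_
    rw [List.prod_ofFn]
    rfl
  have h2 : C.act c α ∈ C.gr P P.dim := by
    have h := C.push_mem (snd Y P) (C.mul_mem hc (C.pull_mem (fst Y P) hα))
    have e1 : (P.dim : ℤ) + Y.dim + 1 * ((P.dim : ℤ) - ((Y.prod P).dim : ℤ)) = P.dim := by
      rw [dim_prod]; push_cast; ring
    rw [e1] at h
    exact h
  have h3 : ∀ w : C.A P, w ∈ Submodule.span ℚ
      {w | ∃ z : Fin n → C.A X, (∀ j, C.Deg 1 (z j)) ∧
        w = (List.ofFn fun j => C.up (t j) (z j)).prod} →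
      C.act b w ∈ supportedSpan C t b e s := by
    intro w hw
    induction hw using Submodule.span_induction with
    | zero =>
      rw [← C.actL_apply, map_zero]
      exact Submodule.zero_mem _
    | add x y _ _ hx hy =>
      rw [act_map_add C]
      exact Submodule.add_mem _ hx hy
    | smul q x _ hx =>
      rw [act_map_smul C]
      exact Submodule.smul_mem _ _ hx
    | mem w hw =>
      obtain ⟨z, hz, rfl⟩ := hw
      rw [List.prod_ofFn]
      exact act_prod_mem hd h0 h1 he he1 hinv hk' hP hΓ hb hs z hz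
  have h4 := h3 _ (hP.cycles _ h2)
  rw [hdom α hα] at h4
  have h5 := Submodule.smul_mem _ N⁻¹ h4
  rwa [smul_smul, inv_mul_cancel₀ hN, one_smul] at h5

/-- Zero-cycles of degree zero vanish if there are no forms. -/
theorem main_zero (hX : IsCurveWithGenera C X a γ) (hP : IsPowerOfCurve C t)
    (hΓ : IsWreathSubgroup Γ) (hY : IsDominatedBy C a t Γ b) (hs : NoFormsAbove γ Γ 0)
    (α : C.A Y) (hα : C.Deg Y.dim α) (hα0 : HasDegree C α 0) : α = 0 := by
  obtain ⟨e, he, he1, hspan⟩ := main_span hX hP hΓ hY hs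
  have h1 : supportedSpan C t b e 0 ≤
      Submodule.span ℚ {C.act b (∏ j, C.pull (t j) e)} := by
    refine Submodule.span_le.2 ?_
    rintro w ⟨S, z, hS, -, hz, rfl⟩
    have hS' : S = ∅ := Finset.card_eq_zero.1 (Nat.le_zero.1 hS)
    subst hS'
    have h2 : (List.ofFn fun j => C.up (t j) (z j)).prod = ∏ j, C.pull (t j) e := by
      rw [List.prod_ofFn]
      exact Finset.prod_congr rfl fun j _ => by rw [hz j (Finset.notMem_empty _)]
    rw [h2]
    exact Submodule.mem_span_singleton_self _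
  obtain ⟨u, hu, hu1, hu2⟩ := exists_deg_one C Y
  obtain ⟨q, hq⟩ := Submodule.mem_span_singleton.1 (h1 (hspan α hα))
  obtain ⟨q', hq'⟩ := Submodule.mem_span_singleton.1 (h1 (hspan u hu))
  by_contra hne
  have hone : (1 : C.A Y) ≠ 0 := fun h => hne (by rw [← mul_one α, h, mul_zero])
  have hq0 : q ≠ 0 := fun h => hne (by rw [← hq, h, zero_smul])
  have h3 : u = (q' * q⁻¹) • α := by
    rw [← hq, ← hq', smul_smul, mul_assoc, inv_mul_cancel₀ hq0, mul_one]
  apply hone
  rw [← hu2 Y, h3, map_smul, map_smul, (hα0 Y).1, zero_smul, smul_zero]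

end Pool.Agent.H802GB
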