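import Pool.Agent.R904.Voi.Alt
import Pool.Agent.R904.Voi.Act
import Pool.Agent.H802GB.Defs

/-!
# Sums over stabilizers
-/

universe u v w

namespace Pool.Agent.H802GB

open Equiv Pool.Agent.R904.Voi

variable {r n : ℕ}

/-- Right multiplication in the wreath product. -/
def rmul (q : Wreath r n) : Wreath r n ≃ Wreath r n where
  toFun p := wmul p q
  invFun p := wmul p (q.1⁻¹, fun j => -q.2 (q.1⁻¹ j))
  left_inv p := by
    refine Prod.ext ?_ ?_
    · simp [wmul]
    · funext j
      simp [wmul]
  right_inv p := by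
    refine Prod.ext ?_ ?_
    · simp [wmul]
    · funext j
      simp [wmul]

/-- The value of the character attached to `c`. -/
def charT (c : Fin n → Option (Two r)) (p : Wreath r n) : ℚ := ∏ j, optChi (c j) (p.2 j)

/-- The restriction of a permutation. -/
def res (c : Fin n → Option (Two r)) (p : Wreath r n) : Perm {j // (c j).isSome} :=
  if h : ∀ j, c (p.1 j) = c j then p.1.subtypePerm (fun j => by rw [h j]) else 1

/-- The stabilizer of `c`. -/
def stab (Γ : Finset (Wreath r n)) (c : Fin n → Option (Two r)) : Finset (Wreath r n) :=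
  Γ.filter fun p => ∀ j, c (p.1 j) = c j

lemma optChi_add (φ : Option (Two r)) (g h : Two r) :
    optChi φ (g + h) = optChi φ g * optChi φ h := by
  cases φ with
  | none => simp [optChi]
  | some φ => simp only [optChi, Option.elim]; rw [chi_mul]

lemma charT_mul (c : Fin n → Option (Two r)) (p q : Wreath r n) (hq : ∀ j, c (q.1 j) = c j) :
    charT c (wmul p q) = charT c p * charT c q := by
  have h1 : charT c p = ∏ j, optChi (c j) (p.2 (q.1 j)) := by
    rw [charT, ← Equiv.prod_comp q.1]
    exact Finset.prod_congr rfl fun j _ => by rw [hq]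
  rw [h1, charT, charT, ← Finset.prod_mul_distrib]
  exact Finset.prod_congr rfl fun j _ => optChi_add _ _ _

lemma res_apply {c : Fin n → Option (Two r)} {p : Wreath r n} (hp : ∀ j, c (p.1 j) = c j)
    (x : {j // (c j).isSome}) : ((res c p x : {j // (c j).isSome}) : Fin n) = p.1 x := by
  rw [res, dif_pos hp]
  rfl

lemma wmul_pres {c : Fin n → Option (Two r)} {p q : Wreath r n} (hp : ∀ j, c (p.1 j) = c j)
    (hq : ∀ j, c (q.1 j) = c j) (j : Fin n) : c ((wmul p q).1 j) = c j := by
  change c (p.1 (q.1 j)) = c j
  rw [hp, hq]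

lemma res_mul {c : Fin n → Option (Two r)} {p q : Wreath r n} (hp : ∀ j, c (p.1 j) = c j)
    (hq : ∀ j, c (q.1 j) = c j) : res c (wmul p q) = res c p * res c q := by
  ext x
  rw [res_apply (wmul_pres hp hq), Perm.mul_apply, res_apply hp, res_apply hq]
  rfl

/-- The type of a position. -/
def typ (c : Fin n → Option (Two r)) (x : {j // (c j).isSome}) : Two r := (c x.1).get x.2

lemma typ_spec (c : Fin n → Option (Two r)) (x : {j // (c j).isSome}) :
    c x.1 = some (typ c x) := by
  rw [typ, Option.some_get]

lemma res_typ {c : Fin n → Option (Two r)} {p : Wreath r n} (hp : ∀ j, c (p.1 j) = c j)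
    (x : {j // (c j).isSome}) : typ c (res c p x) = typ c x := by
  have h := typ_spec c (res c p x)
  rw [res_apply hp, hp, typ_spec c x] at h
  exact (Option.some_injective _ h).symm

variable {M : Type*} [AddCommGroup M] [Module ℚ M]

/-- Reindexing of a sum over a stabilizer by right multiplication. -/
lemma sum_stab {Γ : Finset (Wreath r n)} (hΓ : IsWreathSubgroup Γ) (c : Fin n → Option (Two r))
    {q : Wreath r n} (hq : q ∈ stab Γ c) (f : Wreath r n → M) :
    ∑ p ∈ stab Γ c, f (wmul p q) = ∑ p ∈ stab Γ c, f p := by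
  classical
  rw [stab, Finset.mem_filter] at hq
  have h1 : (stab Γ c).map (rmul q).toEmbedding = stab Γ c := by
    refine Finset.eq_of_subset_of_card_le ?_ (by rw [Finset.card_map])
    intro p hp
    obtain ⟨p', hp', rfl⟩ := Finset.mem_map.1 hp
    rw [stab, Finset.mem_filter] at hp' ⊢
    exact ⟨hΓ.mul_mem _ hp'.1 _ hq.1, wmul_pres hp'.2 hq.2⟩
  conv_rhs => rw [← h1, Finset.sum_map]
  rfl

lemma card_fib (γ : Two r → ℕ) (q : Two r) :
    Fintype.card {g : Eig γ // g.1 = q} = γ q := by
  rw [Fintype.card_congr (Equiv.sigmaSubtype q), Fintype.card_fin]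

/-- The vanishing of the sum over the stabilizer of a type. -/
theorem stab_sum {γ : Two r → ℕ} {Γ : Finset (Wreath r n)} (hΓ : IsWreathSubgroup Γ)
    (c : Fin n → Option (Two r))
    (hk : ∀ β : Fin n → Option (Eig γ), (∀ j, (β j).map Sigma.fst = c j) → IsKilled γ Γ β)
    (z : Perm {j // (c j).isSome} → M)
    (hz : ∀ (q : Two r) (A : Finset {j // (c j).isSome}), A.card = γ q + 1 →
      (∀ x ∈ A, typ c x = q) → ∀ σ : Perm {j // (c j).isSome}, (∀ x, typ c (σ x) = typ c x) →
      ∑ ρ : Perm A, z (σ * Perm.ofSubtype ρ) = 0) :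
    ∑ p ∈ stab Γ c, charT c p • z (res c p) = 0 := by
  classical
  let F : Perm {j // (c j).isSome} → ℚ := fun π =>
    ∑ p ∈ stab Γ c, if res c p = π then ((Perm.sign π : ℤ) : ℚ) * charT c p else 0
  have key := alt_sum (κ := {j // (c j).isSome}) (Q := Two r) (Γ := Eig γ) (M := M)
    Sigma.fst (typ c) F ?_ ?_ z ?_
  · rw [← key]
    have e2 : ∀ π : Perm {j // (c j).isSome}, (((Perm.sign π : ℤ) : ℚ) * F π) • z π =
        ∑ p ∈ stab Γ c, if res c p = π then charT c p • z (res c p) else 0 := by
      intro π
      simp only [F]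
      rw [Finset.mul_sum, Finset.sum_smul]
      refine Finset.sum_congr rfl fun p _ => ?_
      split_ifs with h
      · subst h
        have e3 : ((Perm.sign (res c p) : ℤ) : ℚ) * (((Perm.sign (res c p) : ℤ) : ℚ) *
            charT c p) = charT c p := by
          rw [← mul_assoc, ← Int.cast_mul, Int.units_coe_mul_self, Int.cast_one, one_mul]
        rw [e3]
      · rw [mul_zero, zero_smul]
    rw [Finset.sum_congr rfl fun π _ => e2 π, Finset.sum_comm]
    refine Finset.sum_congr rfl fun p _ => ?_
    rw [Finset.sum_ite_eq]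
    simp
  · intro π hπ
    obtain ⟨p, hp, hpp⟩ := Finset.exists_ne_zero_of_sum_ne_zero hπ
    split_ifs at hpp with h
    · subst h
      intro x
      exact res_typ (Finset.mem_filter.1 hp).2 x
    · exact absurd rfl hpp
  · intro c' hc' Y
    -- the colouring as a monomial form
    let β : Fin n → Option (Eig γ) := fun j =>
      if h : (c j).isSome then some (c' ⟨j, h⟩) else none
    have hβ : ∀ j, (β j).map Sigma.fst = c j := by
      intro j
      simp only [β]
      split_ifs with h
      · rw [Option.map_some, hc', ← typ_spec c ⟨j, h⟩]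
      · rw [Option.map_none]
        rw [Option.not_isSome_iff_eq_none] at h
        exact h.symm
    have hβs : ∀ x : {j // (c j).isSome}, β x = some (c' x) := by
      intro x
      simp only [β]
      rw [dif_pos x.2]
    obtain ⟨q, hqΓ, hqβ, τ, hτ1, hτ2, hsign⟩ := hk β hβ
    have hqc : ∀ j, c (q.1 j) = c j := by
      intro j
      rw [← hβ, ← hβ, hqβ]
    have hqs : q ∈ stab Γ c := Finset.mem_filter.2 ⟨hqΓ, hqc⟩
    have hchar : (∏ j, optChi ((β j).map Sigma.fst) (q.2 j)) = charT c q :=
      Finset.prod_congr rfl fun j _ => by rw [hβ]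
    have hsg : Perm.sign (res c q) = Perm.sign τ := by
      rw [← Perm.sign_ofSubtype (res c q)]
      congr 1
      refine Equiv.ext fun j => ?_
      by_cases hj : (c j).isSome = true
      · rw [Perm.ofSubtype_apply_of_mem (p := fun j => (c j).isSome = true) (res c q) hj,
          res_apply hqc, hτ1]
        rw [hβs ⟨j, hj⟩]
        exact Option.some_ne_none _
      · rw [Perm.ofSubtype_apply_of_not_mem (p := fun j => (c j).isSome = true) (res c q) hj, hτ2]
        simp only [β]
        rw [dif_neg hj]
    have hc'q : ∀ x, c' (res c q x) = c' x := by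
      intro x
      apply Option.some_injective
      rw [← hβs, ← hβs, res_apply hqc, hqβ]
    -- the sum over the stabilizer
    have e1 : ∑ π, F π * ∏ x, Y (c' x) (π x) = ∑ p ∈ stab Γ c,
        ((Perm.sign (res c p) : ℤ) : ℚ) * charT c p * ∏ x, Y (c' x) (res c p x) := by
      have e2 : ∀ π, F π * ∏ x, Y (c' x) (π x) = ∑ p ∈ stab Γ c, if res c p = π then
          ((Perm.sign (res c p) : ℤ) : ℚ) * charT c p * ∏ x, Y (c' x) (res c p x) else 0 := by
        intro π
        simp only [F]
        rw [Finset.sum_mul]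
        refine Finset.sum_congr rfl fun p _ => ?_
        split_ifs with h
        · subst h
          rfl
        · rw [zero_mul]
      rw [Finset.sum_congr rfl fun π _ => e2 π, Finset.sum_comm]
      refine Finset.sum_congr rfl fun p _ => ?_
      rw [Finset.sum_ite_eq]
      simp
    rw [e1]
    have e3 : ∑ p ∈ stab Γ c, ((Perm.sign (res c p) : ℤ) : ℚ) * charT c p *
        ∏ x, Y (c' x) (res c p x) = -∑ p ∈ stab Γ c, ((Perm.sign (res c p) : ℤ) : ℚ) *
        charT c p * ∏ x, Y (c' x) (res c p x) := by
      conv_lhs => rw [← sum_stab hΓ c hqs (fun p => ((Perm.sign (res c p) : ℤ) : ℚ) *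
        charT c p * ∏ x, Y (c' x) (res c p x))]
      rw [← Finset.sum_neg_distrib]
      refine Finset.sum_congr rfl fun p hp => ?_
      have hpc := (Finset.mem_filter.1 hp).2
      have e4 : ∏ x, Y (c' x) (res c (wmul p q) x) = ∏ x, Y (c' x) (res c p x) := by
        rw [← Equiv.prod_comp (res c q) fun x => Y (c' x) (res c p x)]
        refine Finset.prod_congr rfl fun x _ => ?_
        rw [hc'q, res_mul hpc hqc]
        rfl
      rw [e4, res_mul hpc hqc, charT_mul c p q hqc, Perm.sign_mul, hsg]
      rw [hchar] at hsign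
      push_cast
      linear_combination ((Perm.sign (res c p) : ℤ) : ℚ) * charT c p *
        (∏ x, Y (c' x) (res c p x)) * hsign
    linarith
  · intro q A hA hAq π hπ
    rw [card_fib] at hA
    exact hz q A hA hAq π hπ

end Pool.Agent.H802GB
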