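import Pool.Agent.R904.Voi.Act
import Pool.Agent.H802GB.Sum

/-!
# Symmetrizations of products of zero-cycles on a curve
-/

open CategoryTheory AlgebraicGeometry

universe u v w

namespace Pool.Agent.H802GB

open Pool.Agent.H914 Pool.Agent.H914.VarClass Pool.Agent.H914.VarClass.Obj Pool.Agent.W492.BB
  Pool.Agent.W550.Corr Pool.Agent.TH133 Pool.Agent.TH829.Kim Pool.Agent.R904.Voi

variable {k : Type u} [Field k] {𝒱 : VarClass k}

variable {C : TheoryData.{u, v, 0} 𝒱 ℚ} [hC : IsChowProj C] {X Y Z W V T S P : 𝒱.Obj}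

include hC

/-- The exterior product of a fixed zero-cycle and a zero-cycle. -/
lemma fix_ext {p : C.A (X.prod X)} (hs : tp C p = p) {z e : C.A X} (hz : C.act p z = z) :
    C.comp p (C.pull (fst X X) z * C.pull (snd X X) e) =
      C.pull (fst X X) z * C.pull (snd X X) e := by
  apply ext_vl
  intro W x y
  have h1 : ∀ {U : 𝒱.Obj} (x : U ⟶ X) (y : U ⟶ X), vl C (C.pull (fst X X) z *
      C.pull (snd X X) e) x y = C.pull x z * C.pull y e := by
    intro U x y
    rw [vl, map_mul, ← C.pull_comp, ← C.pull_comp, lift_fst, lift_snd]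
  rw [vl_comp, h1, h1, ← hz]
  have h2 := pull_act (W := W) p z x
  rw [h2, hz, C.pull_comp, ← mul_assoc, C.proj_right, vl_symm hs]

/-- The symmetrization of a product of zero-cycles which come from a motive with vanishing
permanents is zero. -/
theorem relZ {m : ℕ} {p : C.A (X.prod X)} (hX : X.dim = 1) (hp : C.comp p p = p)
    (hs : tp C p = p) (hpd : p ∈ C.gr (X.prod X) X.dim) (h : PermZero C p (Fin m ⊕ Fin m))
    {e : C.A X} (he : C.Deg 1 e) (he1 : HasDegree C e 1) {z : Fin m → C.A X}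
    (hz : ∀ j, C.Deg 1 (z j)) (hfix : ∀ j, C.act p (z j) = z j) (x : Fin m → (W ⟶ X)) :
    ∑ ρ : Equiv.Perm (Fin m), ∏ j, C.pull (x (ρ j)) (z j) = 0 := by
  obtain ⟨P, f, t, hP⟩ := exists_fub (C := C) W X m
  have h1 := rel hp hs hpd (by omega) h
    (α := fun j => C.pull (fst X X) (z j) * C.pull (snd X X) e)
    (fun j => by
      rw [hX]
      exact C.mul_mem (C.pull_mem _ (hz j)) (C.pull_mem _ he))
    (fun j => fix_ext hs (hfix j)) (fun j => f ≫ x j) t
  have h2 := congrArg (C.push f) h1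
  rw [map_zero, map_sum] at h2
  refine Eq.trans (Finset.sum_congr rfl fun ρ _ => ?_) h2
  have h3 : ∀ j : Fin m, vl C (C.pull (fst X X) (z j) * C.pull (snd X X) e) (f ≫ x (ρ j)) (t j) =
      vl C (C.pull (fst W X) (C.pull (x (ρ j)) (z j)) * C.pull (snd W X) e) f (t j) := by
    intro j
    rw [vl, vl, map_mul, map_mul, ← C.pull_comp, ← C.pull_comp, lift_fst, lift_snd,
      ← C.pull_comp (Obj.lift f (t j)) (fst W X), lift_fst,
      ← C.pull_comp (Obj.lift f (t j)) (snd W X), lift_snd, C.pull_comp]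
  rw [Finset.prod_congr rfl fun j _ => h3 j, hP]
  refine Finset.prod_congr rfl fun j _ => ?_
  rw [C.proj_left, (he1 W).2, one_smul, mul_one]

/-- The symmetrization over the positions in `A`. -/
theorem relZ_sub {a : ℕ} {κ : Type} [Fintype κ] [DecidableEq κ] {p : C.A (X.prod X)}
    (hX : X.dim = 1) (hp : C.comp p p = p)
    (hs : tp C p = p) (hpd : p ∈ C.gr (X.prod X) X.dim)
    (h : PermZero C p (Fin (a + 1) ⊕ Fin (a + 1)))
    {e : C.A X} (he : C.Deg 1 e) (he1 : HasDegree C e 1) {z : κ → C.A X} (A : Finset κ)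
    (hA : A.card = a + 1) (hz : ∀ j ∈ A, C.Deg 1 (z j)) (hfix : ∀ j ∈ A, C.act p (z j) = z j)
    (x : κ → (W ⟶ X)) :
    ∑ ρ : Equiv.Perm A, ∏ j, C.pull (x (Equiv.Perm.ofSubtype ρ j)) (z j) = 0 := by
  classical
  let e' : Fin (a + 1) ≃ A := (A.equivFinOfCardEq hA).symm
  have h1 := relZ hX hp hs hpd h he he1 (z := fun i => z (e' i)) (fun i => hz _ (e' i).2)
    (fun i => hfix _ (e' i).2) (fun i => x (e' i))
  rw [← Equiv.sum_comp e'.permCongr]
  have h2 : ∀ ρ : Equiv.Perm (Fin (a + 1)),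
      ∏ j, C.pull (x (Equiv.Perm.ofSubtype (e'.permCongr ρ) j)) (z j) =
        (∏ i, C.pull (x (e' (ρ i))) (z (e' i))) * ∏ j ∈ Aᶜ, C.pull (x j) (z j) := by
    intro ρ
    rw [← Finset.prod_mul_prod_compl A]
    congr 1
    · rw [← Finset.prod_coe_sort, ← Equiv.prod_comp e']
      refine Finset.prod_congr rfl fun i _ => ?_
      rw [Equiv.Perm.ofSubtype_apply_coe, Equiv.permCongr_apply, Equiv.symm_apply_apply]
    · refine Finset.prod_congr rfl fun j hj => ?_
      rw [Equiv.Perm.ofSubtype_apply_of_not_mem _ (Finset.mem_compl.1 hj)]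
  rw [Finset.sum_congr rfl fun ρ _ => h2 ρ, ← Finset.sum_mul, h1, zero_mul]

section group

variable {r : ℕ} {a : Two r → (X ⟶ X)} {e : C.A X}

/-- The component of a zero-cycle for a character. -/
noncomputable def cpt (C : TheoryData.{u, v, 0} 𝒱 ℚ) (a : Two r → (X ⟶ X)) (e : C.A X)
    (φ : Two r) (z : C.A X) : C.A X := C.act (charProj C a e φ) z

lemma cpt_deg (hd : X.dim = 1) (he : C.Deg 1 e) (φ : Two r) {z : C.A X} (hz : C.Deg 1 z) :
    C.Deg 1 (cpt C a e φ z) := by
  have h := C.push_mem (snd X X) (C.mul_mem (charProj_mem (a := a) hd he φ)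
    (C.pull_mem (fst X X) hz))
  have e1 : (X.dim : ℤ) + 1 + 1 * ((X.dim : ℤ) - ((X.prod X).dim : ℤ)) = 1 := by
    rw [dim_prod]; push_cast; ring
  rw [e1] at h
  exact h

lemma cpt_fix (hd : X.dim = 1) (he : C.Deg 1 e) (he1 : HasDegree C e 1) (h0 : a 0 = 𝟙 X)
    (h1 : ∀ g h, a (g + h) = a g ≫ a h) (hinv : ∀ g, C.pull (a g) e = e) (φ : Two r) (z : C.A X) :
    C.act (charProj C a e φ) (cpt C a e φ z) = cpt C a e φ z := by
  rw [cpt, ← C.act_comp, charProj_idem hd he he1 h0 h1 hinv]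

omit hC in
lemma chi_sq (φ g : Two r) : chi φ g * chi φ g = 1 := by
  unfold chi
  split_ifs <;> norm_num

lemma cpt_eigen (h1 : ∀ g h, a (g + h) = a g ≫ a h) (φ g : Two r) (z : C.A X) :
    C.pull (a g) (cpt C a e φ z) = chi φ g • cpt C a e φ z := by
  have h2 : ∀ x y : (X.prod X) ⟶ X, vl C (charProj C a e φ) x (y ≫ a g) =
      chi φ g • vl C (charProj C a e φ) x y := by
    intro x y
    rw [charProj_eq, vl_smul, vl_smul, vl_sum, vl_sum, smul_comm (chi φ g)]
    congr 1
    rw [Finset.smul_sum (r := chi φ g),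
      ← Equiv.sum_comp (Equiv.addLeft g) (fun h => chi φ g • vl C (chi φ h • gP a e h) x y)]
    refine Finset.sum_congr rfl fun h _ => ?_
    rw [vl_smul, vl_smul, smul_smul, Equiv.coe_addLeft, ← chi_mul, ← mul_assoc, chi_sq, one_mul,
      vl_gP, vl_gP, Category.assoc, ← h1]
  have h3 : C.pull (𝟙 X) (cpt C a e φ z) = cpt C a e φ z := C.pull_id _
  rw [cpt, pull_act, h2, smul_mul_assoc, map_smul]
  conv_rhs => rw [← C.pull_id (C.act (charProj C a e φ) z), pull_act, Category.comp_id]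

/-- The decomposition of a zero-cycle. -/
lemma decomp (hd : X.dim = 1) (he : C.Deg 1 e) (h0 : a 0 = 𝟙 X) {z : C.A X} (hz : C.Deg 1 z) :
    ∃ q : ℚ, z = q • e + ∑ φ, cpt C a e φ z := by
  obtain ⟨q, hq⟩ := exists_hasDegree (C := C) (X := X) (x := z) (by rw [hd]; exact hz)
  refine ⟨q, ?_⟩
  have h1 : ∑ φ, cpt C a e φ z = C.act (midProj C e) z := by
    rw [← charProj_sum (C := C) (a := a) (e := e) h0]
    simp only [cpt]
    rw [act_sum C]
  have h2 : e * z = 0 := hC.gr_top _ (1 + 1) _ (C.mul_mem he hz) (by rw [hd]; norm_num)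
  have h3 : C.act (C.pull (fst X X) e) z = 0 := by
    rw [TheoryData.act_apply, ← map_mul, h2, map_zero, map_zero]
  have h4 : C.act (C.pull (snd X X) e) z = q • e := by
    rw [TheoryData.act_apply, C.proj_left, (hq X).1, mul_smul_comm, mul_one]
  rw [h1, midProj, C.act_sub, C.act_sub, act_dg, h3, h4]
  abel

end group

end Pool.Agent.H802GB
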